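import Pool.Agent.H85.Rho.Defs

/-!
# Project RHO, module E1: greedy choice of residue classes
-/

set_option autoImplicit false

open Finset Real

namespace Pool.Agent.H85.Rho

/-- some residue class mod `l` contains at least `|U| / l` elements of `U` -/
theorem exists_class (U : Finset ℕ) (l : ℕ) (hl : 0 < l) :
    ∃ c : ℕ, (U.card : ℝ) / l ≤ ((U.filter (fun j => j ≡ c [MOD l])).card : ℝ) := by
  by_contra hcon
  push Not at hcon
  have h1 : U.card = ∑ c ∈ range l, (U.filter (fun j => j % l = c)).card := by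
    refine Finset.card_eq_sum_card_fiberwise fun j _ => ?_
    simp only [coe_range, Set.mem_Iio]
    exact Nat.mod_lt _ hl
  have h2 : ∑ c ∈ range l, ((U.filter (fun j => j % l = c)).card : ℝ) <
      ∑ c ∈ range l, (U.card : ℝ) / l := by
    refine Finset.sum_lt_sum_of_nonempty ⟨0, Finset.mem_range.2 hl⟩ fun c hc => ?_
    have h3 := hcon c
    have h4 : (U.filter (fun j => j % l = c)) = U.filter (fun j => j ≡ c [MOD l]) := by
      refine Finset.filter_congr fun j _ => ?_
      unfold Nat.ModEq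
      rw [Nat.mod_eq_of_lt (Finset.mem_range.1 hc)]
    rw [h4]
    exact h3
  rw [Finset.sum_const, card_range, nsmul_eq_mul] at h2
  have hl' : (l : ℝ) ≠ 0 := by exact_mod_cast hl.ne'
  rw [mul_div_cancel₀ _ hl'] at h2
  have h5 : (U.card : ℝ) = ∑ c ∈ range l, ((U.filter (fun j => j % l = c)).card : ℝ) := by
    exact_mod_cast h1
  rw [← h5] at h2
  exact lt_irrefl _ h2

theorem greedy (U P : Finset ℕ) (hP : ∀ l ∈ P, 0 < l) :
    ∃ h : ℕ → ℕ, ((U.filter (fun j => ∀ l ∈ P, ¬ j ≡ h l [MOD l])).card : ℝ) ≤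
      U.card * ∏ l ∈ P, (1 - (1 : ℝ) / l) := by
  induction P using Finset.induction_on with
  | empty =>
    refine ⟨fun _ => 0, ?_⟩
    simp
  | insert l P hl ih =>
    obtain ⟨h, hh⟩ := ih fun l hl => hP l (Finset.mem_insert_of_mem hl)
    have hlpos : 0 < l := hP l (Finset.mem_insert_self _ _)
    have hlR : (1 : ℝ) ≤ l := by exact_mod_cast hlpos
    obtain ⟨c, hc⟩ := exists_class (U.filter (fun j => ∀ l ∈ P, ¬ j ≡ h l [MOD l])) l hlpos
    refine ⟨Function.update h l c, ?_⟩
    set U' := U.filter (fun j => ∀ l ∈ P, ¬ j ≡ h l [MOD l]) with hU'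
    have e : (U.filter (fun j => ∀ l' ∈ insert l P, ¬ j ≡ (Function.update h l c) l' [MOD l'])) =
        U' \ U'.filter (fun j => j ≡ c [MOD l]) := by
      ext j
      simp only [Finset.mem_filter, Finset.mem_sdiff, hU', Finset.mem_insert, forall_eq_or_imp,
        Function.update_self]
      constructor
      · rintro ⟨hj, h1, h2⟩
        refine ⟨⟨hj, fun l' hl' => ?_⟩, fun h3 => h1 h3.2⟩
        have hne : l' ≠ l := fun h => hl (h ▸ hl')
        have := h2 l' hl'
        rwa [Function.update_of_ne hne] at this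
      · rintro ⟨⟨hj, h1⟩, h2⟩
        refine ⟨hj, fun h3 => h2 ⟨⟨hj, h1⟩, h3⟩, fun l' hl' => ?_⟩
        have hne : l' ≠ l := fun h => hl (h ▸ hl')
        rw [Function.update_of_ne hne]
        exact h1 l' hl'
    rw [e, Finset.card_sdiff_of_subset (Finset.filter_subset _ _), Finset.prod_insert hl,
      Nat.cast_sub (Finset.card_le_card (Finset.filter_subset _ _))]
    have h6 : (0 : ℝ) ≤ 1 - 1 / l := by
      rw [sub_nonneg, div_le_one (by linarith)]
      exact hlR
    calc (U'.card : ℝ) - (U'.filter (fun j => j ≡ c [MOD l])).card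
        ≤ U'.card - U'.card / l := by linarith
      _ = U'.card * (1 - 1 / l) := by ring
      _ ≤ (U.card * ∏ l ∈ P, (1 - (1 : ℝ) / l)) * (1 - 1 / l) :=
          mul_le_mul_of_nonneg_right hh h6
      _ = U.card * ((1 - 1 / l) * ∏ l ∈ P, (1 - (1 : ℝ) / l)) := by ring

end Pool.Agent.H85.Rho
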