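import Pool.Agent.H85.Rho.Defs

/-!
# Project RHO, module E2: Rankin's bound for smooth numbers
-/

set_option autoImplicit false

open Finset Real

namespace Pool.Agent.H85.Rho

/-- the multiplicative function `n ↦ n ^ (-s)` -/
noncomputable def rpowHom (s : ℝ) : ℕ →* ℝ where
  toFun n := (n : ℝ) ^ (-s)
  map_one' := by simp
  map_mul' m n := by
    push_cast
    exact Real.mul_rpow (Nat.cast_nonneg _) (Nat.cast_nonneg _)

theorem rpowHom_apply (s : ℝ) (n : ℕ) : rpowHom s n = (n : ℝ) ^ (-s) := rfl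

theorem primesBelow_succ_eq (y : ℕ) : (y + 1).primesBelow = pr 0 y := by
  ext p
  rw [mem_pr, Nat.mem_primesBelow]
  constructor
  · rintro ⟨h1, h2⟩
    exact ⟨⟨h2.pos, by omega⟩, h2⟩
  · rintro ⟨h1, h2⟩
    exact ⟨by omega, h2⟩

/-- Rankin's trick -/
theorem rankin_aux {s : ℝ} (hs : 0 < s) (y x : ℕ) (hx : 1 ≤ x) :
    ((Sm y x).card : ℝ) ≤ (x : ℝ) ^ s * ∏ p ∈ pr 0 y, (1 - (p : ℝ) ^ (-s))⁻¹ := by
  have hlt : ∀ {p : ℕ}, Nat.Prime p → ‖rpowHom s p‖ < 1 := by
    intro p hp
    have hp1 : (1 : ℝ) < p := by exact_mod_cast hp.one_lt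
    rw [rpowHom_apply, Real.norm_of_nonneg (by positivity)]
    exact Real.rpow_lt_one_of_one_lt_of_neg hp1 (by linarith)
  obtain ⟨h1, h2⟩ :=
    EulerProduct.summable_and_hasSum_smoothNumbers_prod_primesBelow_geometric hlt (y + 1)
  rw [primesBelow_succ_eq] at h2
  have hxR : (0 : ℝ) < x := by exact_mod_cast hx
  have h3 : ∑ m ∈ Sm y x, (m : ℝ) ^ (-s) ≤ ∏ p ∈ pr 0 y, (1 - (p : ℝ) ^ (-s))⁻¹ := by
    have hmem : ∀ m ∈ Sm y x, m ∈ (y + 1).smoothNumbers := by
      intro m hm
      rw [mem_Sm] at hm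
      rw [Nat.mem_smoothNumbers']
      intro p hp hpm
      have := hm.2 p hp hpm
      omega
    have h4 := h2.summable.sum_le_tsum
      ((Sm y x).attach.map ⟨fun m => (⟨m.1, hmem m.1 m.2⟩ : (y + 1).smoothNumbers),
        fun a b hab => by
          have := congrArg Subtype.val hab
          exact Subtype.ext this⟩)
      (fun m _ => by
        rw [rpowHom_apply]
        positivity)
    rw [h2.tsum_eq, Finset.sum_map] at h4
    simp only [Function.Embedding.coeFn_mk, rpowHom_apply] at h4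
    rwa [Finset.sum_attach (Sm y x) (fun m => (m : ℝ) ^ (-s))] at h4
  calc ((Sm y x).card : ℝ) = ∑ m ∈ Sm y x, (1 : ℝ) := by simp
    _ ≤ ∑ m ∈ Sm y x, (x : ℝ) ^ s * (m : ℝ) ^ (-s) := by
        refine Finset.sum_le_sum fun m hm => ?_
        rw [mem_Sm] at hm
        have hm1 : (0 : ℝ) < m := by exact_mod_cast hm.1.1
        have hmx : (m : ℝ) ≤ x := by exact_mod_cast hm.1.2
        rw [Real.rpow_neg hm1.le, ← div_eq_mul_inv, ← Real.div_rpow hxR.le hm1.le]
        refine Real.one_le_rpow ?_ hs.le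
        rw [one_le_div hm1]
        exact hmx
    _ = (x : ℝ) ^ s * ∑ m ∈ Sm y x, (m : ℝ) ^ (-s) := by rw [Finset.mul_sum]
    _ ≤ _ := mul_le_mul_of_nonneg_left h3 (by positivity)

theorem rankin_of {C0 : ℝ} (hC0 : ∀ n : ℕ, 3 ≤ n →
    ∑ p ∈ pr 0 n, (1 : ℝ) / p ≤ Real.log (Real.log n) + C0) :
    ∃ A C : ℝ, 0 < A ∧ 0 < C ∧ ∀ y x : ℕ, 3 ≤ y → y ≤ x →
    ((Sm y x).card : ℝ) ≤
      C * x * Real.exp (- Real.log x / Real.log y) * (Real.log y) ^ A := by
  have hl3 : 1 < Real.log 3 := by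
    rw [Real.lt_log_iff_exp_lt (by norm_num)]
    linarith [Real.exp_one_lt_d9]
  set s0 : ℝ := 1 - 1 / Real.log 3 with hs0
  have hs0pos : 0 < s0 := by
    rw [hs0, sub_pos, div_lt_one (by linarith)]
    exact hl3
  set t0 : ℝ := (2 : ℝ) ^ (-s0) with ht0
  have ht0lt : t0 < 1 := Real.rpow_lt_one_of_one_lt_of_neg (by norm_num) (by linarith)
  have ht0pos : 0 < t0 := by positivity
  set K : ℝ := Real.exp 1 / (1 - t0) with hK
  have h1t0 : 0 < 1 - t0 := by linarith
  have hKpos : 0 < K := by positivity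
  refine ⟨K, Real.exp (K * C0), hKpos, Real.exp_pos _, fun y x hy hyx => ?_⟩
  have hyR : (3 : ℝ) ≤ y := by exact_mod_cast hy
  have hxR : (3 : ℝ) ≤ x := hyR.trans (by exact_mod_cast hyx)
  have hly : 1 < Real.log y := lt_of_lt_of_le hl3 (Real.log_le_log (by norm_num) hyR)
  set s : ℝ := 1 - 1 / Real.log y with hs
  have hss : s0 ≤ s := by
    rw [hs0, hs]
    have : 1 / Real.log y ≤ 1 / Real.log 3 :=
      one_div_le_one_div_of_le (by linarith) (Real.log_le_log (by norm_num) hyR)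
    linarith
  have hspos : 0 < s := lt_of_lt_of_le hs0pos hss
  refine (rankin_aux hspos y x (by omega)).trans ?_
  have h1 : (x : ℝ) ^ s = x * Real.exp (- Real.log x / Real.log y) := by
    have hx0 : (0 : ℝ) < x := by linarith
    rw [hs, Real.rpow_sub hx0, Real.rpow_one, Real.rpow_def_of_pos hx0, div_eq_mul_inv,
      ← Real.exp_neg]
    congr 2
    ring
  have h2 : ∏ p ∈ pr 0 y, (1 - (p : ℝ) ^ (-s))⁻¹ ≤
      Real.exp (K * C0) * (Real.log y) ^ K := by
    have h3 : ∀ p ∈ pr 0 y, (1 - (p : ℝ) ^ (-s))⁻¹ ≤ Real.exp (K * (1 / p)) := by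
      intro p hp
      rw [mem_pr] at hp
      obtain ⟨⟨_, hpy⟩, hpp⟩ := hp
      have hp2 : (2 : ℝ) ≤ p := by exact_mod_cast hpp.two_le
      have hp0 : (0 : ℝ) < p := by linarith
      have hpy' : (p : ℝ) ≤ y := by exact_mod_cast hpy
      set t : ℝ := (p : ℝ) ^ (-s) with ht
      have htpos : 0 < t := by positivity
      have htt0 : t ≤ t0 := by
        rw [ht, ht0]
        calc (p : ℝ) ^ (-s) ≤ (2 : ℝ) ^ (-s) :=
              Real.rpow_le_rpow_of_nonpos (by norm_num) hp2 (by linarith)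
          _ ≤ (2 : ℝ) ^ (-s0) :=
              Real.rpow_le_rpow_of_exponent_le (by norm_num) (by linarith)
      have htp : t ≤ Real.exp 1 * (1 / p) := by
        have e : t = Real.exp (Real.log p / Real.log y) * (1 / p) := by
          rw [ht, hs, neg_sub, Real.rpow_sub hp0, Real.rpow_one, Real.rpow_def_of_pos hp0]
          rw [mul_one_div, div_eq_mul_one_div]
        rw [e]
        refine mul_le_mul_of_nonneg_right (Real.exp_le_exp.2 ?_) (by positivity)
        rw [div_le_one (by linarith)]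
        exact Real.log_le_log hp0 hpy'
      have h1t : 0 < 1 - t := by linarith
      have e1 : (1 - t)⁻¹ = t / (1 - t) + 1 := by
        field_simp
        ring
      rw [e1]
      refine (Real.add_one_le_exp _).trans (Real.exp_le_exp.2 ?_)
      calc t / (1 - t) ≤ t / (1 - t0) := by
            refine div_le_div_of_nonneg_left htpos.le h1t0 (by linarith)
        _ ≤ (Real.exp 1 * (1 / p)) / (1 - t0) := by
            refine div_le_div_of_nonneg_right htp h1t0.le
        _ = K * (1 / p) := by rw [hK]; ring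
    calc ∏ p ∈ pr 0 y, (1 - (p : ℝ) ^ (-s))⁻¹ ≤ ∏ p ∈ pr 0 y, Real.exp (K * (1 / p)) := by
          refine Finset.prod_le_prod (fun p hp => ?_) h3
          rw [mem_pr] at hp
          have hp1 : (1 : ℝ) < p := by exact_mod_cast hp.2.one_lt
          have : (p : ℝ) ^ (-s) < 1 := Real.rpow_lt_one_of_one_lt_of_neg hp1 (by linarith)
          exact inv_nonneg.2 (by linarith)
      _ = Real.exp (K * ∑ p ∈ pr 0 y, (1 : ℝ) / p) := by
          rw [← Real.exp_sum, Finset.mul_sum]
      _ ≤ Real.exp (K * (Real.log (Real.log y) + C0)) :=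
          Real.exp_le_exp.2 (mul_le_mul_of_nonneg_left (hC0 y hy) hKpos.le)
      _ = Real.exp (K * C0) * (Real.log y) ^ K := by
          rw [Real.rpow_def_of_pos (by linarith), ← Real.exp_add]
          congr 1
          ring
  calc (x : ℝ) ^ s * ∏ p ∈ pr 0 y, (1 - (p : ℝ) ^ (-s))⁻¹
      ≤ (x : ℝ) ^ s * (Real.exp (K * C0) * (Real.log y) ^ K) :=
        mul_le_mul_of_nonneg_left h2 (by positivity)
    _ = _ := by
        rw [h1]
        ring

end Pool.Agent.H85.Rho
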