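import Pool.Agent.H85.Rho.Defs
import Pool.Agent.H27.Rho.E1
import Pool.Agent.H27.Rho.E2

/-!
# Project RHO, module E3: covering almost all of `[0, J]` by classes modulo primes in `(w, z]`
-/

set_option autoImplicit false

open Finset Real

namespace Pool.Agent.H85.Rho

theorem pi_le_five {x : ℝ} (hx : 2 ≤ x) :
    (Nat.primeCounting ⌊x⌋₊ : ℝ) ≤ 5 * x / Real.log x := by
  have hx1 : 1 < x := by linarith
  have h := Chebyshev.pi_le_log4_mul_div hx1
  have hlx : 0 < Real.log x := Real.log_pos hx1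
  have hsq : Real.log (Real.sqrt x) = Real.log x / 2 := Real.log_sqrt (by linarith)
  have hs0 : 0 < Real.sqrt x := Real.sqrt_pos.2 (by linarith)
  have hss : Real.sqrt x * Real.sqrt x = x := Real.mul_self_sqrt (by linarith)
  have h1 : Real.log (Real.sqrt x) ≤ Real.sqrt x - 1 := Real.log_le_sub_one_of_pos hs0
  have h2 : Real.sqrt x ≤ 2 * x / Real.log x := by
    rw [le_div_iff₀ hlx]
    have : Real.log x ≤ 2 * Real.sqrt x := by rw [hsq] at h1; linarith
    calc Real.sqrt x * Real.log x ≤ Real.sqrt x * (2 * Real.sqrt x) :=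
          mul_le_mul_of_nonneg_left this hs0.le
      _ = 2 * (Real.sqrt x * Real.sqrt x) := by ring
      _ = 2 * x := by rw [hss]
  have h4 : Real.log 4 ≤ 3 / 2 := by
    have : Real.log 4 = 2 * Real.log 2 := by
      rw [show (4 : ℝ) = 2 ^ 2 by norm_num, Real.log_pow]
      norm_num
    rw [this]
    linarith [Real.log_two_lt_d9]
  have h3 : Real.log 4 * x / Real.log (Real.sqrt x) ≤ 3 * x / Real.log x := by
    rw [hsq, div_le_div_iff₀ (by linarith) hlx]
    have : Real.log 4 * x ≤ 3 / 2 * x := mul_le_mul_of_nonneg_right h4 (by linarith)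
    nlinarith
  calc (Nat.primeCounting ⌊x⌋₊ : ℝ) ≤ Real.log 4 * x / Real.log (Real.sqrt x) + Real.sqrt x := h
    _ ≤ 3 * x / Real.log x + 2 * x / Real.log x := add_le_add h3 h2
    _ = 5 * x / Real.log x := by ring

/-- the numbers in `[0, J]` without prime factors in `(a, z]` -/
theorem card_uncovered (a z J : ℕ) (hz : 1 ≤ z) :
    ((Finset.range (J + 1)).filter (fun j => ∀ l ∈ pr a z, ¬ j ≡ 0 [MOD l])).card ≤
      1 + (Sm a J).card + ∑ m ∈ Finset.Icc 1 (J / z), Nat.primeCounting (J / m) := by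
  classical
  have hsub : (Finset.range (J + 1)).filter (fun j => ∀ l ∈ pr a z, ¬ j ≡ 0 [MOD l]) ⊆
      ({0} ∪ Sm a J) ∪ (Finset.Icc 1 (J / z)).biUnion (fun m =>
        ((Finset.range (J / m + 1)).filter Nat.Prime).image (fun q => m * q)) := by
    intro j hj
    simp only [Finset.mem_filter, Finset.mem_range] at hj
    obtain ⟨hjJ, hcov⟩ := hj
    rcases Nat.eq_zero_or_pos j with rfl | hj0
    · simp
    by_cases hsm : ∀ p, p.Prime → p ∣ j → p ≤ a
    · refine Finset.mem_union_left _ (Finset.mem_union_right _ ?_)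
      rw [mem_Sm]
      exact ⟨⟨hj0, by omega⟩, hsm⟩
    · push Not at hsm
      obtain ⟨q, hq, hqj, hqa⟩ := hsm
      have hqz : z < q := by
        by_contra hcon
        push Not at hcon
        refine hcov q ?_ ?_
        · rw [mem_pr]
          exact ⟨⟨hqa, hcon⟩, hq⟩
        · rw [Nat.modEq_zero_iff_dvd]
          exact hqj
      refine Finset.mem_union_right _ ?_
      obtain ⟨m, hm⟩ := hqj
      have hm0 : 0 < m := by
        rcases Nat.eq_zero_or_pos m with h | h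
        · subst h
          omega
        · exact h
      rw [Finset.mem_biUnion]
      refine ⟨m, ?_, ?_⟩
      · rw [Finset.mem_Icc]
        refine ⟨hm0, ?_⟩
        rw [Nat.le_div_iff_mul_le hz]
        calc m * z ≤ m * q := Nat.mul_le_mul_left _ hqz.le
          _ = j := by rw [hm, mul_comm]
          _ ≤ J := by omega
      · rw [Finset.mem_image]
        refine ⟨q, ?_, by rw [hm, mul_comm]⟩
        rw [Finset.mem_filter, Finset.mem_range, Nat.lt_succ_iff, Nat.le_div_iff_mul_le hm0]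
        refine ⟨?_, hq⟩
        calc q * m = j := hm.symm
          _ ≤ J := by omega
  refine (Finset.card_le_card hsub).trans ((Finset.card_union_le _ _).trans ?_)
  refine add_le_add ((Finset.card_union_le _ _).trans ?_) (Finset.card_biUnion_le.trans ?_)
  · simp
  · refine Finset.sum_le_sum fun m _ => Finset.card_image_le.trans ?_
    rw [Nat.primeCounting, Nat.primeCounting', Nat.count_eq_card_filter_range]

theorem sum_pi_le (z J : ℕ) (hz : 2 ≤ z) (hJ : z ≤ J) :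
    ∑ m ∈ Finset.Icc 1 (J / z), (Nat.primeCounting (J / m) : ℝ) ≤
      5 * J / Real.log z * (1 + Real.log (J / z)) := by
  have hzR : (2 : ℝ) ≤ z := by exact_mod_cast hz
  have hlz : 0 < Real.log z := Real.log_pos (by linarith)
  have hJR : (0 : ℝ) < J := by
    have : 0 < J := by omega
    exact_mod_cast this
  have h1 : ∀ m ∈ Finset.Icc 1 (J / z), (Nat.primeCounting (J / m) : ℝ) ≤
      5 * J / Real.log z * (1 / m) := by
    intro m hm
    rw [Finset.mem_Icc, Nat.le_div_iff_mul_le (by omega)] at hm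
    obtain ⟨hm1, hmz⟩ := hm
    have hmR : (0 : ℝ) < m := by exact_mod_cast hm1
    have hzm : (z : ℝ) ≤ (J : ℝ) / m := by
      rw [le_div_iff₀ hmR]
      have : z * m ≤ J := by rw [mul_comm]; exact hmz
      exact_mod_cast this
    have h2 := pi_le_five (x := (J : ℝ) / m) (hzR.trans hzm)
    rw [Nat.floor_div_eq_div] at h2
    refine h2.trans ?_
    calc 5 * ((J : ℝ) / m) / Real.log ((J : ℝ) / m) ≤ 5 * ((J : ℝ) / m) / Real.log z := by
          refine div_le_div_of_nonneg_left (by positivity) hlz ?_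
          exact Real.log_le_log (by linarith) hzm
      _ = _ := by ring
  refine (Finset.sum_le_sum h1).trans ?_
  rw [← Finset.mul_sum]
  refine mul_le_mul_of_nonneg_left ?_ (by positivity)
  have h3 := harmonic_le_one_add_log (J / z)
  have h4 : ((harmonic (J / z) : ℚ) : ℝ) = ∑ m ∈ Finset.Icc 1 (J / z), (1 : ℝ) / m := by
    rw [harmonic_eq_sum_Icc]
    push_cast
    simp [one_div]
  rw [h4] at h3
  refine h3.trans ?_
  have h5 : 1 ≤ J / z := (Nat.one_le_div_iff (by omega)).2 hJ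
  have h6 : ((J / z : ℕ) : ℝ) ≤ (J : ℝ) / z := Nat.cast_div_le
  have h7 : (0 : ℝ) < ((J / z : ℕ) : ℝ) := by exact_mod_cast h5
  have := Real.log_le_log h7 h6
  linarith

theorem pr_zero_split (w z : ℕ) (h : w ≤ z) : pr 0 z = pr 0 w ∪ pr w z := by
  ext p
  simp only [mem_pr, Finset.mem_union]
  constructor
  · rintro ⟨⟨h1, h2⟩, h3⟩
    rcases le_or_gt p w with h4 | h4
    · exact Or.inl ⟨⟨h1, h4⟩, h3⟩
    · exact Or.inr ⟨⟨h4, h2⟩, h3⟩
  · rintro (⟨⟨h1, h2⟩, h3⟩ | ⟨⟨h1, h2⟩, h3⟩)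
    · exact ⟨⟨h1, h2.trans h⟩, h3⟩
    · exact ⟨⟨by omega, h2⟩, h3⟩

theorem pr_disj (w z : ℕ) : Disjoint (pr 0 w) (pr w z) := by
  rw [Finset.disjoint_left]
  intro p h1 h2
  rw [mem_pr] at h1 h2
  omega

theorem prod_pr_pos (a b : ℕ) : 0 < ∏ p ∈ pr a b, (1 - (1 : ℝ) / p) := by
  refine Finset.prod_pos fun p hp => ?_
  rw [mem_pr] at hp
  have hp1 : (1 : ℝ) < p := by exact_mod_cast hp.2.one_lt
  rw [sub_pos, div_lt_one (by linarith)]
  exact hp1

theorem cover_core (w : ℕ) {A C1 : ℝ} (hA : 0 < A) (hC1 : 0 < C1)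
    (hr : ∀ y x : ℕ, 3 ≤ y → y ≤ x → ((Sm y x).card : ℝ) ≤
      C1 * x * Real.exp (- Real.log x / Real.log y) * (Real.log y) ^ A)
    (hup : ∀ n : ℕ, 2 ≤ n → ∏ p ∈ pr 0 n, (1 - (1 : ℝ) / p) ≤ 1 / Real.log n)
    (z z1 J : ℕ) (hJz : z ≤ J) (h3 : 3 ≤ z1) (hw : w ≤ z1) (hz1 : z1 ≤ z)
    (L : ℝ) (hL : L = Real.log z) (hL1 : 1 ≤ L)
    (hJ : (J : ℝ) ≤ z * Real.exp (2 * L ^ (1 / 4 : ℝ)))
    (hzL : L ^ 2 ≤ z)
    (h5 : (A + 2) * Real.log L * Real.log z1 ≤ L)
    (h6 : L ≤ 2 * (A + 2) * Real.log L * Real.log z1)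
    (h7 : (16 + C1) * (2 * (A + 2)) / (∏ p ∈ pr 0 w, (1 - (1 : ℝ) / p)) * Real.log L ≤
      L ^ (1 / 4 : ℝ)) :
    ∃ h : ℕ → ℕ, (((Finset.range (J + 1)).filter (fun j => ∀ l ∈ pr w z,
      ¬ j ≡ h l [MOD l])).card : ℝ) ≤ (J : ℝ) / L ^ (3 / 2 : ℝ) := by
  classical
  have hz3 : 3 ≤ z := h3.trans hz1
  have hzR : (3 : ℝ) ≤ z := by exact_mod_cast hz3
  have hJR : (z : ℝ) ≤ J := by exact_mod_cast hJz
  have hJ0 : (0 : ℝ) < J := by linarith
  have hz1R : (3 : ℝ) ≤ z1 := by exact_mod_cast h3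
  have hlz1 : 0 < Real.log z1 := Real.log_pos (by linarith)
  have hL0 : 0 < L := by linarith
  have hq1 : 1 ≤ L ^ (1 / 4 : ℝ) := Real.one_le_rpow hL1 (by norm_num)
  have hlz1L : Real.log z1 ≤ L := by
    rw [hL]
    exact Real.log_le_log (by linarith) (by exact_mod_cast hz1)
  have hLJ : L ≤ Real.log J := by
    rw [hL]
    exact Real.log_le_log (by linarith) hJR
  have hlL : 0 ≤ Real.log L := Real.log_nonneg hL1
  set U := (Finset.range (J + 1)).filter (fun j => ∀ l ∈ pr z1 z, ¬ j ≡ 0 [MOD l]) with hU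
  have hUcard : (U.card : ℝ) ≤ (16 + C1) * (J * (L ^ (1 / 4 : ℝ) / L)) := by
    have h8 := card_uncovered z1 z J (by omega)
    have h9 : (U.card : ℝ) ≤ 1 + (Sm z1 J).card +
        ∑ m ∈ Finset.Icc 1 (J / z), (Nat.primeCounting (J / m) : ℝ) := by exact_mod_cast h8
    have h10 : ((Sm z1 J).card : ℝ) ≤ C1 * (J * (L ^ (1 / 4 : ℝ) / L)) := by
      refine (hr z1 J h3 (hz1.trans hJz)).trans ?_
      have e1 : Real.exp (- Real.log J / Real.log z1) ≤ L ^ (-(A + 2)) := by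
        rw [Real.rpow_def_of_pos hL0]
        refine Real.exp_le_exp.2 ?_
        rw [div_le_iff₀ hlz1]
        nlinarith
      have e2 : (Real.log z1) ^ A ≤ L ^ A := Real.rpow_le_rpow hlz1.le hlz1L hA.le
      have e3 : Real.exp (- Real.log J / Real.log z1) * (Real.log z1) ^ A ≤ L ^ (1 / 4 : ℝ) / L := by
        calc Real.exp (- Real.log J / Real.log z1) * (Real.log z1) ^ A
            ≤ L ^ (-(A + 2)) * L ^ A := mul_le_mul e1 e2 (by positivity) (by positivity)
          _ = L ^ (-2 : ℝ) := by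
              rw [← Real.rpow_add hL0]
              congr 1
              ring
          _ ≤ L ^ (1 / 4 - 1 : ℝ) := Real.rpow_le_rpow_of_exponent_le hL1 (by norm_num)
          _ = L ^ (1 / 4 : ℝ) / L := by rw [Real.rpow_sub hL0, Real.rpow_one]
      calc C1 * J * Real.exp (- Real.log J / Real.log z1) * (Real.log z1) ^ A
          = C1 * J * (Real.exp (- Real.log J / Real.log z1) * (Real.log z1) ^ A) := by ring
        _ ≤ C1 * J * (L ^ (1 / 4 : ℝ) / L) := mul_le_mul_of_nonneg_left e3 (by positivity)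
        _ = _ := by ring
    have h11 : ∑ m ∈ Finset.Icc 1 (J / z), (Nat.primeCounting (J / m) : ℝ) ≤
        15 * (J * (L ^ (1 / 4 : ℝ) / L)) := by
      refine (sum_pi_le z J (by omega) hJz).trans ?_
      have e1 : Real.log (J / z) ≤ 2 * L ^ (1 / 4 : ℝ) := by
        rw [Real.log_le_iff_le_exp (by positivity), div_le_iff₀ (by linarith), mul_comm]
        exact hJ
      rw [← hL]
      have e2 : 1 + Real.log (J / z) ≤ 3 * L ^ (1 / 4 : ℝ) := by linarith
      calc 5 * (J : ℝ) / L * (1 + Real.log (J / z)) ≤ 5 * (J : ℝ) / L * (3 * L ^ (1 / 4 : ℝ)) :=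
            mul_le_mul_of_nonneg_left e2 (by positivity)
        _ = _ := by ring
    have h12 : (1 : ℝ) ≤ 1 * (J * (L ^ (1 / 4 : ℝ) / L)) := by
      have e1 : L ^ 2 ≤ J := hzL.trans hJR
      have e2 : L ≤ J * L ^ (1 / 4 : ℝ) := by
        have : L * 1 ≤ (L ^ 2) * L ^ (1 / 4 : ℝ) := by
          refine mul_le_mul ?_ hq1 (by norm_num) (by positivity)
          nlinarith
        calc L = L * 1 := by ring
          _ ≤ (L ^ 2) * L ^ (1 / 4 : ℝ) := this
          _ ≤ J * L ^ (1 / 4 : ℝ) := mul_le_mul_of_nonneg_right e1 (by positivity)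
      rw [one_mul, ← mul_div_assoc, le_div_iff₀ hL0, one_mul]
      exact e2
    calc (U.card : ℝ) ≤ _ := h9
      _ ≤ 1 * (J * (L ^ (1 / 4 : ℝ) / L)) + C1 * (J * (L ^ (1 / 4 : ℝ) / L)) +
          15 * (J * (L ^ (1 / 4 : ℝ) / L)) := add_le_add (add_le_add h12 h10) h11
      _ = _ := by ring
  have hprod : ∏ l ∈ pr w z1, (1 - (1 : ℝ) / l) ≤
      2 * (A + 2) * Real.log L / L / ∏ p ∈ pr 0 w, (1 - (1 : ℝ) / p) := by
    have e1 := hup z1 (by omega)
    rw [pr_zero_split w z1 hw, Finset.prod_union (pr_disj w z1)] at e1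
    rw [le_div_iff₀ (prod_pr_pos 0 w), mul_comm]
    refine e1.trans ?_
    rw [div_le_div_iff₀ hlz1 hL0]
    linarith
  obtain ⟨h', hh'⟩ := greedy U (pr w z1) fun l hl => ((mem_pr.1 hl).2).pos
  refine ⟨fun l => if l ≤ z1 then h' l else 0, ?_⟩
  have hsub : (Finset.range (J + 1)).filter (fun j => ∀ l ∈ pr w z,
      ¬ j ≡ (fun l => if l ≤ z1 then h' l else 0) l [MOD l]) ⊆
      U.filter (fun j => ∀ l ∈ pr w z1, ¬ j ≡ h' l [MOD l]) := by
    intro j hj
    rw [Finset.mem_filter] at hj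
    rw [Finset.mem_filter, hU, Finset.mem_filter]
    refine ⟨⟨hj.1, fun l hl => ?_⟩, fun l hl => ?_⟩
    · rw [mem_pr] at hl
      have h13 := hj.2 l (by
        rw [mem_pr]
        exact ⟨⟨by omega, hl.1.2⟩, hl.2⟩)
      have h14 : ¬ l ≤ z1 := by omega
      simpa only [if_neg h14] using h13
    · rw [mem_pr] at hl
      have h13 := hj.2 l (by
        rw [mem_pr]
        exact ⟨⟨hl.1.1, by omega⟩, hl.2⟩)
      simpa only [if_pos hl.1.2] using h13
  have hcard : (((Finset.range (J + 1)).filter (fun j => ∀ l ∈ pr w z,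
      ¬ j ≡ (fun l => if l ≤ z1 then h' l else 0) l [MOD l])).card : ℝ) ≤
      ((U.filter (fun j => ∀ l ∈ pr w z1, ¬ j ≡ h' l [MOD l])).card : ℝ) := by
    exact_mod_cast Finset.card_le_card hsub
  refine hcard.trans (hh'.trans ?_)
  have hfin : L ^ (1 / 4 : ℝ) * L ^ (1 / 4 : ℝ) / (L * L) = 1 / L ^ (3 / 2 : ℝ) := by
    rw [div_eq_div_iff (by positivity) (by positivity), one_mul, ← Real.rpow_add hL0,
      ← Real.rpow_add hL0]
    have : L * L = L ^ (2 : ℝ) := by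
      rw [Real.rpow_two]
      ring
    rw [this]
    congr 1
    norm_num
  calc (U.card : ℝ) * ∏ l ∈ pr w z1, (1 - (1 : ℝ) / l)
      ≤ ((16 + C1) * (J * (L ^ (1 / 4 : ℝ) / L))) *
        (2 * (A + 2) * Real.log L / L / ∏ p ∈ pr 0 w, (1 - (1 : ℝ) / p)) :=
        mul_le_mul hUcard hprod (prod_pr_pos _ _).le (by positivity)
    _ = J * L ^ (1 / 4 : ℝ) / (L * L) *
        ((16 + C1) * (2 * (A + 2)) / (∏ p ∈ pr 0 w, (1 - (1 : ℝ) / p)) * Real.log L) := by
        ring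
    _ ≤ J * L ^ (1 / 4 : ℝ) / (L * L) * L ^ (1 / 4 : ℝ) :=
        mul_le_mul_of_nonneg_left h7 (by positivity)
    _ = J * (L ^ (1 / 4 : ℝ) * L ^ (1 / 4 : ℝ) / (L * L)) := by ring
    _ = J / L ^ (3 / 2 : ℝ) := by rw [hfin, mul_one_div]

/-- the choice of `z1` -/
theorem exists_z1 (w : ℕ) {a K : ℝ} (ha : 1 ≤ a) (hK : 0 < K) :
    ∃ z0 : ℕ, ∀ z : ℕ, z0 ≤ z → ∃ z1 : ℕ, 3 ≤ z1 ∧ w ≤ z1 ∧ z1 ≤ z ∧ 1 ≤ Real.log z ∧
      (Real.log z) ^ 2 ≤ z ∧ a * Real.log (Real.log z) * Real.log z1 ≤ Real.log z ∧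
      Real.log z ≤ 2 * a * Real.log (Real.log z) * Real.log z1 ∧
      K * Real.log (Real.log z) ≤ (Real.log z) ^ (1 / 4 : ℝ) := by
  have t1 : Filter.Tendsto (fun z : ℕ => Real.log z) Filter.atTop Filter.atTop :=
    Real.tendsto_log_atTop.comp tendsto_natCast_atTop_atTop
  have t2 : Filter.Tendsto (fun L : ℝ => L ^ (1 / 8 : ℝ)) Filter.atTop Filter.atTop :=
    tendsto_rpow_atTop (by norm_num)
  have t3 : Filter.Tendsto (fun L : ℝ => L ^ (1 / 2 : ℝ)) Filter.atTop Filter.atTop :=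
    tendsto_rpow_atTop (by norm_num)
  have ev : ∀ᶠ L : ℝ in Filter.atTop, Real.exp 1 ≤ L ∧ 8 * K ≤ L ^ (1 / 8 : ℝ) ∧
      (w + 4) * (2 * a) ≤ L ^ (1 / 2 : ℝ) :=
    (Filter.eventually_ge_atTop _).and ((t2.eventually_ge_atTop _).and (t3.eventually_ge_atTop _))
  obtain ⟨z0, hz0⟩ := Filter.eventually_atTop.1 (t1.eventually ev)
  refine ⟨max z0 1, fun z hz => ?_⟩
  obtain ⟨hLe, h8, h9⟩ := hz0 z ((le_max_left _ _).trans hz)
  have hz1 : 1 ≤ z := (le_max_right _ _).trans hz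
  have hzR : (1 : ℝ) ≤ z := by exact_mod_cast hz1
  set L : ℝ := Real.log z with hL
  have hexpL : Real.exp L = z := Real.exp_log (by linarith)
  have he1 : (1 : ℝ) ≤ Real.exp 1 := Real.one_le_exp (by norm_num)
  have hL1 : 1 ≤ L := he1.trans hLe
  have hL0 : 0 < L := by linarith
  have hLL1 : 1 ≤ Real.log L := by
    rw [Real.le_log_iff_exp_le hL0]
    exact hLe
  have hLL0 : 0 < Real.log L := by linarith
  have hKL : K * Real.log L ≤ L ^ (1 / 4 : ℝ) := by
    have h1 : Real.log L ≤ L ^ (1 / 8 : ℝ) / (1 / 8) := Real.log_le_rpow_div hL0.le (by norm_num)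
    have h2 : L ^ (1 / 4 : ℝ) = L ^ (1 / 8 : ℝ) * L ^ (1 / 8 : ℝ) := by
      rw [← Real.rpow_add hL0]
      norm_num
    rw [h2]
    calc K * Real.log L ≤ K * (L ^ (1 / 8 : ℝ) / (1 / 8)) := mul_le_mul_of_nonneg_left h1 hK.le
      _ = 8 * K * L ^ (1 / 8 : ℝ) := by ring
      _ ≤ L ^ (1 / 8 : ℝ) * L ^ (1 / 8 : ℝ) := mul_le_mul_of_nonneg_right h8 (by positivity)
  set E : ℝ := L / (a * Real.log L) with hE
  have haLL : 0 < a * Real.log L := by positivity
  have hEw : (w : ℝ) + 4 ≤ E := by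
    have h1 : Real.log L ≤ L ^ (1 / 2 : ℝ) / (1 / 2) := Real.log_le_rpow_div hL0.le (by norm_num)
    have h2 : L = L ^ (1 / 2 : ℝ) * L ^ (1 / 2 : ℝ) := by
      rw [← Real.rpow_add hL0]
      norm_num
    rw [hE, le_div_iff₀ haLL]
    have hw0 : (0 : ℝ) ≤ w := Nat.cast_nonneg _
    calc ((w : ℝ) + 4) * (a * Real.log L) ≤ ((w : ℝ) + 4) * (a * (L ^ (1 / 2 : ℝ) / (1 / 2))) := by
          refine mul_le_mul_of_nonneg_left ?_ (by positivity)
          exact mul_le_mul_of_nonneg_left h1 (by linarith)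
      _ = ((w : ℝ) + 4) * (2 * a) * L ^ (1 / 2 : ℝ) := by ring
      _ ≤ L ^ (1 / 2 : ℝ) * L ^ (1 / 2 : ℝ) := mul_le_mul_of_nonneg_right h9 (by positivity)
      _ = L := h2.symm
  have hw0 : (0 : ℝ) ≤ w := Nat.cast_nonneg _
  have hE4 : 4 ≤ E := by linarith
  have hEL : E ≤ L := by
    rw [hE]
    refine div_le_self hL0.le ?_
    calc (1 : ℝ) = 1 * 1 := by ring
      _ ≤ a * Real.log L := mul_le_mul ha hLL1 (by norm_num) (by linarith)
  have hexpE : E + 1 ≤ Real.exp E := Real.add_one_le_exp E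
  set z1 : ℕ := ⌊Real.exp E⌋₊ with hz1def
  have hfl : Real.exp E < z1 + 1 := Nat.lt_floor_add_one _
  have hfl2 : (z1 : ℝ) ≤ Real.exp E := Nat.floor_le (Real.exp_pos _).le
  have hz1w : (w : ℝ) + 4 < z1 := by linarith
  have hz1pos : (0 : ℝ) < z1 := by linarith
  have hlogle : Real.log z1 ≤ E := by
    rw [Real.log_le_iff_le_exp hz1pos]
    exact hfl2
  have hlogge : E / 2 ≤ Real.log z1 := by
    rw [Real.le_log_iff_exp_le hz1pos]
    have h1 : Real.exp E = Real.exp (E / 2) * Real.exp (E / 2) := by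
      rw [← Real.exp_add]
      congr 1
      ring
    have h2 : 3 ≤ Real.exp (E / 2) := by
      have := Real.add_one_le_exp (E / 2)
      linarith
    nlinarith
  refine ⟨z1, ?_, ?_, ?_, hL1, ?_, ?_, ?_, hKL⟩
  · have : (3 : ℝ) ≤ z1 := by linarith
    exact_mod_cast this
  · have : (w : ℝ) ≤ z1 := by linarith
    exact_mod_cast this
  · have : (z1 : ℝ) ≤ z := by
      rw [← hexpL]
      exact hfl2.trans (Real.exp_le_exp.2 hEL)
    exact_mod_cast this
  · rw [← hexpL]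
    have h1 : Real.exp L = Real.exp (L / 2) * Real.exp (L / 2) := by
      rw [← Real.exp_add]
      congr 1
      ring
    have h2 : L ≤ Real.exp (L / 2) := by
      have h3 := Real.add_one_le_exp (L / 4)
      have h4 : Real.exp (L / 2) = Real.exp (L / 4) * Real.exp (L / 4) := by
        rw [← Real.exp_add]
        congr 1
        ring
      rw [h4]
      have h5 : L ≤ (L / 4 + 1) * (L / 4 + 1) := by nlinarith [sq_nonneg (L / 4 - 1)]
      refine h5.trans (mul_le_mul h3 h3 (by positivity) (Real.exp_pos _).le)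
    rw [h1, sq]
    exact mul_le_mul h2 h2 hL0.le (Real.exp_pos _).le
  · calc a * Real.log L * Real.log z1 ≤ a * Real.log L * E :=
          mul_le_mul_of_nonneg_left hlogle haLL.le
      _ = L := by
          rw [hE]
          exact mul_div_cancel₀ _ haLL.ne'
  · calc L = 2 * a * Real.log L * (E / 2) := by
          rw [hE]
          field_simp
      _ ≤ 2 * a * Real.log L * Real.log z1 :=
          mul_le_mul_of_nonneg_left hlogge (by positivity)

theorem cover_of (w : ℕ) {A C1 : ℝ} (hA : 0 < A) (hC1 : 0 < C1)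
    (hr : ∀ y x : ℕ, 3 ≤ y → y ≤ x → ((Sm y x).card : ℝ) ≤
      C1 * x * Real.exp (- Real.log x / Real.log y) * (Real.log y) ^ A)
    (hup : ∀ n : ℕ, 2 ≤ n → ∏ p ∈ pr 0 n, (1 - (1 : ℝ) / p) ≤ 1 / Real.log n) :
    ∃ z0 : ℕ, ∀ z : ℕ, z0 ≤ z → ∀ J : ℕ,
    (J : ℝ) ≤ z * Real.exp (2 * (Real.log z) ^ (1 / 4 : ℝ)) →
    ∃ h : ℕ → ℕ, (((Finset.range (J + 1)).filter (fun j => ∀ l ∈ pr w z,
      ¬ j ≡ h l [MOD l])).card : ℝ) ≤ ((J : ℝ) + z) / (Real.log z) ^ (3 / 2 : ℝ) := by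
  classical
  have hK : 0 < (16 + C1) * (2 * (A + 2)) / (∏ p ∈ pr 0 w, (1 - (1 : ℝ) / p)) :=
    div_pos (by positivity) (prod_pr_pos 0 w)
  obtain ⟨z0, hz0⟩ := exists_z1 w (a := A + 2) (by linarith) hK
  refine ⟨z0, fun z hz J hJ => ?_⟩
  obtain ⟨z1, h3, hw, hz1, hL1, hL2, h5, h6, h7⟩ := hz0 z hz
  have hL0 : 0 < Real.log z := by linarith
  rcases le_total z J with hzJ | hJz
  · obtain ⟨h, hh⟩ := cover_core w hA hC1 hr hup z z1 J hzJ h3 hw hz1 (Real.log z) rfl hL1 hJ hL2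
      h5 h6 h7
    refine ⟨h, hh.trans ?_⟩
    refine div_le_div_of_nonneg_right ?_ (by positivity)
    have : (0 : ℝ) ≤ z := Nat.cast_nonneg _
    linarith
  · have hz' : (z : ℝ) ≤ z * Real.exp (2 * (Real.log z) ^ (1 / 4 : ℝ)) := by
      refine le_mul_of_one_le_right (Nat.cast_nonneg _) ?_
      exact Real.one_le_exp (by positivity)
    obtain ⟨h, hh⟩ := cover_core w hA hC1 hr hup z z1 z le_rfl h3 hw hz1 (Real.log z) rfl hL1 hz'
      hL2 h5 h6 h7
    refine ⟨h, ?_⟩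
    have h8 : ((Finset.range (J + 1)).filter (fun j => ∀ l ∈ pr w z, ¬ j ≡ h l [MOD l])).card ≤
        ((Finset.range (z + 1)).filter (fun j => ∀ l ∈ pr w z, ¬ j ≡ h l [MOD l])).card := by
      refine Finset.card_le_card (Finset.filter_subset_filter _ ?_)
      exact Finset.range_mono (by omega)
    calc (((Finset.range (J + 1)).filter (fun j => ∀ l ∈ pr w z, ¬ j ≡ h l [MOD l])).card : ℝ)
        ≤ ((Finset.range (z + 1)).filter (fun j => ∀ l ∈ pr w z, ¬ j ≡ h l [MOD l])).card := by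
          exact_mod_cast h8
      _ ≤ (z : ℝ) / (Real.log z) ^ (3 / 2 : ℝ) := hh
      _ ≤ _ := by
          refine div_le_div_of_nonneg_right ?_ (by positivity)
          have : (0 : ℝ) ≤ J := Nat.cast_nonneg _
          linarith

end Pool.Agent.H85.Rho
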