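import Pool.Agent.H85.Rho.Defs
import Pool.Agent.H27.Rho.E3
import Pool.Agent.H51.Rho.M

/-!
# Project RHO, module E: `rankin` and `cover`
-/

set_option autoImplicit false

open Finset Real

namespace Pool.Agent.H85.Rho

theorem rankin : ∃ A C : ℝ, 0 < A ∧ 0 < C ∧ ∀ y x : ℕ, 3 ≤ y → y ≤ x →
    ((Sm y x).card : ℝ) ≤
      C * x * Real.exp (- Real.log x / Real.log y) * (Real.log y) ^ A := by
  obtain ⟨C0, _, hC0⟩ := mertens_recip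
  exact rankin_of hC0

theorem cover (w : ℕ) : ∃ z0 : ℕ, ∀ z : ℕ, z0 ≤ z → ∀ J : ℕ,
    (J : ℝ) ≤ z * Real.exp (2 * (Real.log z) ^ (1 / 4 : ℝ)) →
    ∃ h : ℕ → ℕ, (((Finset.range (J + 1)).filter (fun j => ∀ l ∈ pr w z,
      ¬ j ≡ h l [MOD l])).card : ℝ) ≤ ((J : ℝ) + z) / (Real.log z) ^ (3 / 2 : ℝ) := by
  obtain ⟨A, C1, hA, hC1, hr⟩ := rankin
  exact cover_of w hA hC1 hr mertens_prod_up

end Pool.Agent.H85.Rho
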